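import Pool.Agent.SF.Defs
import Pool.Agent.Helper386.FF.Riemann

/-! Shared definitions: base fields, model of the function field over the big field, places. -/

set_option autoImplicit false
set_option linter.all false
set_option linter.overlappingInstances false

open Module FF

namespace SF

/-- (K) The constant field `k`: `x` is not a cube and `k` is existentially closed among the fields
in which `x` is not a cube. -/
structure IsK (k : Type) [Field k] (z x : k) : Prop where
  prim : IsPrimitiveRoot z 3
  notcube : ¬ ∃ c : k, c ^ 3 = x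
  ec : ∀ (κ : Type) [Field κ] [Algebra k κ], (¬ ∃ c : κ, c ^ 3 = algebraMap k κ x) →
    ∀ s : Finset κ, Nonempty (Algebra.adjoin k (s : Set κ) →ₐ[k] k)

/-- the variable `y` of `k((y))` -/
noncomputable def yv (k : Type) [Field k] : LaurentSeries k := HahnSeries.single 1 1

/-- (E) `E` is a maximal algebraic extension of `k((y))` over which `(y, x)` is not split. -/
structure IsE (k : Type) [Field k] (x : k) (E : Type) [Field E] [Algebra (LaurentSeries k) E] :
    Prop where
  alg : Algebra.IsAlgebraic (LaurentSeries k) E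
  nsp : ¬ Sp E (algebraMap (LaurentSeries k) E (yv k))
    (algebraMap (LaurentSeries k) E (HahnSeries.C x))
  sp : ∀ (E' : Type) [Field E'] [Algebra E E'], FiniteDimensional E E' → finrank E E' ≠ 1 →
    Sp E' (algebraMap E E' (algebraMap (LaurentSeries k) E (yv k)))
      (algebraMap E E' (algebraMap (LaurentSeries k) E (HahnSeries.C x)))
  pow3 : ∀ (E' : Type) [Field E'] [Algebra E E'], FiniteDimensional E E' → ∃ j, finrank E E' = 3 ^ j

/-- `M` is the fraction field of `Ω ⊗[F] L` with the action of `Aut(Ω/F)` through `Ω`. -/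
structure Model (F Ω L M : Type) [Field F] [Field Ω] [Algebra F Ω] [Field L] [Algebra F L]
    [Field M] [Algebra Ω M] [Algebra L M] where
  compat : ∀ c : F, algebraMap Ω M (algebraMap F Ω c) = algebraMap L M (algebraMap F L c)
  act : (Ω ≃ₐ[F] Ω) →* (M ≃+* M)
  act_const : ∀ (σ : Ω ≃ₐ[F] Ω) (c : Ω), act σ (algebraMap Ω M c) = algebraMap Ω M (σ c)
  act_L : ∀ (σ : Ω ≃ₐ[F] Ω) (l : L), act σ (algebraMap L M l) = algebraMap L M l
  indep : ∀ {ι : Type} (v : ι → L), LinearIndependent F v →
    LinearIndependent Ω (fun i => algebraMap L M (v i))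
  frac : ∀ f : M, ∃ p q : M, p ∈ Submodule.span Ω (Set.range (algebraMap L M)) ∧
    q ∈ Submodule.span Ω (Set.range (algebraMap L M)) ∧ q ≠ 0 ∧ f = p / q

section
variable {F Ω L M : Type} [Field F] [Field Ω] [Algebra F Ω] [Field L] [Algebra F L]
    [Field M] [Algebra Ω M] [Algebra L M]

/-- The action of `σ` on places of `M/Ω`: `ord_{σP}(f) = ord_P(σ⁻¹ f)`. -/
noncomputable def Model.actP (m : Model F Ω L M) (σ : Ω ≃ₐ[F] Ω) (P : Place Ω M) : Place Ω M where
  ord f := P.ord ((m.act σ).symm f)
  ord_zero := by rw [map_zero, P.ord_zero]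
  ord_mul := by
    intro f g hf hg
    rw [map_mul]
    exact P.ord_mul (by simpa using hf) (by simpa using hg)
  ord_add := by
    intro f g hf hg hfg
    rw [map_add]
    refine P.ord_add (by simpa using hf) (by simpa using hg) ?_
    rw [← map_add]
    exact (map_ne_zero_iff _ (RingEquiv.injective _)).2 hfg
  ord_const := by
    intro c hc
    have h : (m.act σ).symm (algebraMap Ω M c) = algebraMap Ω M (σ.symm c) := by
      rw [RingEquiv.symm_apply_eq, m.act_const]; simp
    rw [h]
    exact P.ord_const (by simpa using hc)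
  surj := by
    obtain ⟨t, ht0, ht⟩ := P.surj
    exact ⟨m.act σ t, by simpa using ht0, by simpa using ht⟩

theorem Model.actP_ord (m : Model F Ω L M) (σ : Ω ≃ₐ[F] Ω) (P : Place Ω M) (f : M) :
    (m.actP σ P).ord (m.act σ f) = P.ord f := by
  change P.ord _ = _
  rw [RingEquiv.symm_apply_apply]

/-- the subfield `T.L` of `M` -/
def Model.comp (m : Model F Ω L M) (T : Subfield Ω) : Subfield M :=
  Subfield.closure (algebraMap Ω M '' (T : Set Ω) ∪ Set.range (algebraMap L M))

end

section val
variable {Ω M : Type} [Field Ω] [Field M] [Algebra Ω M] [IsAlgClosed Ω] [CharZero Ω] [IsFF Ω M]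

theorem bijective_RF (P : Place Ω M) : Function.Bijective (algebraMap Ω P.RF) :=
  IsAlgClosed.algebraMap_bijective_of_isIntegral

theorem deg_eq_one (P : Place Ω M) : P.deg = 1 := by
  have h := bijective_RF P
  have : (⊥ : Subalgebra Ω P.RF) = ⊤ := by
    rw [eq_top_iff]
    intro c _
    obtain ⟨d, rfl⟩ := h.2 c
    exact Subalgebra.algebraMap_mem _ d
  unfold Place.deg
  exact Subalgebra.bot_eq_top_iff_finrank_eq_one.1 this

/-- The value of `f` at the place `P` (junk if `f` is not regular at `P`). -/
noncomputable def val (P : Place Ω M) (f : M) : Ω := (RingEquiv.ofBijective _ (bijective_RF P)).symm (P.red f)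

theorem algebraMap_val (P : Place Ω M) (f : M) : algebraMap Ω P.RF (val P f) = P.red f :=
  (RingEquiv.ofBijective _ (bijective_RF P)).apply_symm_apply (P.red f)

theorem val_add (P : Place Ω M) {f g : M} (hf : P.Reg f) (hg : P.Reg g) :
    val P (f + g) = val P f + val P g := by
  apply (algebraMap Ω P.RF).injective
  rw [map_add, algebraMap_val, algebraMap_val, algebraMap_val, P.red_add hf hg]

theorem val_mul (P : Place Ω M) {f g : M} (hf : P.Reg f) (hg : P.Reg g) :
    val P (f * g) = val P f * val P g := by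
  apply (algebraMap Ω P.RF).injective
  rw [map_mul, algebraMap_val, algebraMap_val, algebraMap_val, P.red_mul hf hg]

theorem val_const (P : Place Ω M) (c : Ω) : val P (algebraMap Ω M c) = c := by
  apply (algebraMap Ω P.RF).injective
  rw [algebraMap_val, Place.algebraMap_RF]

theorem val_eq_iff (P : Place Ω M) {f : M} (hf : P.Reg f) (c : Ω) :
    val P f = c ↔ (f = algebraMap Ω M c ∨ 0 < P.ord (f - algebraMap Ω M c)) := by
  have h1 : P.Reg (f - algebraMap Ω M c) := by
    rw [sub_eq_add_neg]; exact P.reg_add hf (P.reg_neg (P.reg_const c))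
  have h2 : P.red (f - algebraMap Ω M c) = algebraMap Ω P.RF (val P f - c) := by
    rw [P.red_sub hf (P.reg_const c), map_sub, algebraMap_val]; rfl
  have h3 := P.red_eq_zero_iff h1
  rw [h2, map_eq_zero_iff _ (algebraMap Ω P.RF).injective, sub_eq_zero, sub_eq_zero] at h3
  exact h3

end val

section
variable {F Ω L M : Type} [Field F] [Field Ω] [Algebra F Ω] [Field L] [Algebra F L]
    [Field M] [Algebra Ω M] [Algebra L M] [IsAlgClosed Ω] [CharZero Ω] [IsFF Ω M]

theorem Model.reg_actP (m : Model F Ω L M) (σ : Ω ≃ₐ[F] Ω) (P : Place Ω M) (f : M) :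
    (m.actP σ P).Reg (m.act σ f) ↔ P.Reg f := by
  unfold Place.Reg
  rw [m.actP_ord]; simp

theorem Model.val_actP (m : Model F Ω L M) (σ : Ω ≃ₐ[F] Ω) (P : Place Ω M) {f : M} (hf : P.Reg f) :
    val (m.actP σ P) (m.act σ f) = σ (val P f) := by
  rw [val_eq_iff _ ((m.reg_actP σ P f).2 hf)]
  have h := (val_eq_iff P hf (val P f)).1 rfl
  rw [← m.act_const, ← map_sub, m.actP_ord]
  rcases h with h | h
  · left; exact congrArg _ h
  · right; exact h

/-- The divisor `-min div (1, g, g g')` for nonzero `g`, `g'`. -/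
noncomputable def DD (g g' : M) : Place Ω M →₀ ℤ := polar g ⊔ polar (g * g')

/-- the `j`-th conjugate `g0 + g1 β + g2 β^2` (with `β` a cube root) -/
noncomputable def cj (β : Ω) (g0 g1 g2 : L) : M :=
  algebraMap L M g0 + algebraMap L M g1 * algebraMap Ω M β + algebraMap L M g2 * algebraMap Ω M (β ^ 2)

end

end SF
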